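import Pool.Agent.L5helper66.TD.Defs2

set_option autoImplicit false

open scoped TensorProduct RealInnerProductSpace

namespace Pool.Agent.L5helper63.NF

open Pool.Agent.L5helper66.TD

/-- the statement of NF3, used as a hypothesis -/
def ExT : Prop := ∀ (a b c d e f : ℝ), 0 < a → 0 < b → 0 < c → 0 < d → 0 < e → 0 < f →
    (a ^ 2 + b ^ 2 - d ^ 2) ^ 2 < 4 * a ^ 2 * b ^ 2 → 0 < cm a b c d e f →
    ∃ T : Fin 4 → E3, AffineIndependent ℝ T ∧ HasEdges T a b c d e f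

theorem tri {a b d : ℝ} (h1 : 0 < a + b + d) (h2 : 0 < a + b - d) (h3 : 0 < a - b + d)
    (h4 : 0 < -a + b + d) : (a ^ 2 + b ^ 2 - d ^ 2) ^ 2 < 4 * a ^ 2 * b ^ 2 := by
  have h : 0 < (a + b + d) * (a + b - d) * ((a - b + d) * (-a + b + d)) := by positivity
  nlinarith [h]

theorem L_cm (w : ℝ) : cm (w + 1) (w + 1) w 6 (w - 1) (w - 1) = 216 * w ^ 2 * (w ^ 2 - 16) := by
  unfold cm
  ring

theorem C_cm (m : ℝ) : cm (4 * m ^ 2 + 36 * m) (3 * m ^ 2 + 14 * m + 27) (-m ^ 2 + 18 * m + 27)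
      (-m ^ 2 + 10 * m + 27) (3 * m ^ 2 + 6 * m + 27) (-2 * m ^ 2 + 8 * m + 18) =
      55296 * m ^ 2 * (m + 1) ^ 2 * (m + 9) ^ 2 * (m - 3) ^ 2 * ((m + 5) * (5 * m + 9)) := by
  unfold cm
  ring

theorem L_exists (hE : ExT) (w : ℝ) (hw : 4 < w) :
    ∃ T : Fin 4 → E3, AffineIndependent ℝ T ∧ HasEdges T (w + 1) (w + 1) w 6 (w - 1) (w - 1) := by
  refine hE _ _ _ _ _ _ (by linarith) (by linarith) (by linarith) (by norm_num) (by linarith)
    (by linarith) (tri (by linarith) (by linarith) (by linarith) (by linarith)) ?_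
  rw [L_cm]
  have h : 0 < w ^ 2 - 16 := by nlinarith
  have hw0 : 0 < w := by linarith
  positivity

theorem C_exists (hE : ExT) (m : ℝ) (hm : 0 < m) (hm3 : m < 3) :
    ∃ T : Fin 4 → E3, AffineIndependent ℝ T ∧
      HasEdges T (4 * m ^ 2 + 36 * m) (3 * m ^ 2 + 14 * m + 27) (-m ^ 2 + 18 * m + 27)
      (-m ^ 2 + 10 * m + 27) (3 * m ^ 2 + 6 * m + 27) (-2 * m ^ 2 + 8 * m + 18) := by
  refine hE _ _ _ _ _ _ (by positivity) (by positivity) (by nlinarith) (by nlinarith)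
    (by positivity) (by nlinarith) (tri (by nlinarith) (by nlinarith) (by nlinarith)
    (by nlinarith)) ?_
  rw [C_cm]
  have h : 0 < (m - 3) ^ 2 := by
    have : m - 3 ≠ 0 := by linarith
    positivity
  positivity

end Pool.Agent.L5helper63.NF
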